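import Pool.Agent.R29.ID.Defs

/-! ID-CRIT: a group with a characteristic cyclic noncentral subgroup is not integrable. -/

set_option autoImplicit false

namespace R29ID

theorem cyc_comm {C : Type} [Group C] [IsCyclic C] (f g : MulAut C) : f * g = g * f := by
  obtain ⟨a, ha⟩ := MonoidHom.map_cyclic f.toMonoidHom
  obtain ⟨b, hb⟩ := MonoidHom.map_cyclic g.toMonoidHom
  have ha' : ∀ x, f x = x ^ a := ha
  have hb' : ∀ x, g x = x ^ b := hb
  refine MulEquiv.ext fun x => ?_
  rw [MulAut.mul_apply, MulAut.mul_apply, ha', hb', ha', hb', ← zpow_mul, ← zpow_mul, mul_comm]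

theorem crit : CRIT := by
  rintro H _ ⟨R, hR, hcyc, hnc⟩ ⟨K, _, ⟨e⟩⟩
  apply hnc
  -- the preimage of `R`
  let S : Subgroup (commutator K) := R.comap e.toMonoidHom
  have hmem : ∀ x : commutator K, x ∈ S ↔ e x ∈ R := fun x => Iff.rfl
  haveI hS : S.Characteristic := by
    rw [Subgroup.characteristic_iff_comap_le]
    intro φ x hx
    rw [Subgroup.mem_comap] at hx
    have h1 : e (φ x) ∈ R := hx
    have h2 := (Subgroup.characteristic_iff_comap_le.1 hR) ((e.symm.trans φ).trans e)
    rw [hmem]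
    refine h2 ?_
    rw [Subgroup.mem_comap]
    show e (φ (e.symm (e x))) ∈ R
    rw [e.symm_apply_apply]
    exact h1
  haveI hSc : IsCyclic S := by
    obtain ⟨⟨r, hr⟩, hgen⟩ := hcyc.exists_generator
    refine ⟨⟨⟨e.symm r, ?_⟩, ?_⟩⟩
    · rw [hmem, e.apply_symm_apply]; exact hr
    · rintro ⟨x, hx⟩
      obtain ⟨n, hn⟩ := hgen ⟨e x, hx⟩
      refine ⟨n, ?_⟩
      have h3 : r ^ n = e x := by
        have := congrArg Subtype.val hn
        simpa using this
      apply Subtype.ext
      show (e.symm r) ^ n = x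
      rw [← map_zpow, h3, e.symm_apply_apply]
  let S' : Subgroup K := S.map (commutator K).subtype
  haveI hN : S'.Normal := inferInstance
  haveI hS'c : IsCyclic S' := by
    obtain ⟨⟨r, hr⟩, hgen⟩ := hSc.exists_generator
    refine ⟨⟨⟨(r : K), ⟨r, hr, rfl⟩⟩, ?_⟩⟩
    rintro ⟨y, x, hx, rfl⟩
    obtain ⟨n, hn⟩ := hgen ⟨x, hx⟩
    refine ⟨n, ?_⟩
    have h3 : r ^ n = x := by
      have := congrArg Subtype.val hn
      simpa using this
    apply Subtype.ext
    show ((r : K)) ^ n = (x : K)
    rw [← h3]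
    rfl
  have hker : commutator K ≤ (MulAut.conjNormal (H := S')).ker := by
    rw [commutator_def, Subgroup.commutator_le]
    intro a _ b _
    rw [MonoidHom.mem_ker, map_commutatorElement, commutatorElement_eq_one_iff_mul_comm]
    exact cyc_comm _ _
  have hcen : ∀ s : commutator K, s ∈ S → ∀ c : commutator K, c * s = s * c := by
    intro s hs c
    have h1 := hker c.2
    rw [MonoidHom.mem_ker] at h1
    have h2 : MulAut.conjNormal (H := S') (c : K) ⟨(s : K), ⟨s, hs, rfl⟩⟩ =
      ⟨(s : K), ⟨s, hs, rfl⟩⟩ := by rw [h1]; rfl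
    have h3 := congrArg Subtype.val h2
    rw [MulAut.conjNormal_apply] at h3
    apply Subtype.ext
    show (c : K) * s = s * c
    have h4 : (c : K) * s * (c : K)⁻¹ = s := h3
    rw [mul_inv_eq_iff_eq_mul] at h4
    exact h4
  intro r hr
  rw [Subgroup.mem_center_iff]
  intro h
  have h5 := hcen (e.symm r) (by rw [hmem, e.apply_symm_apply]; exact hr) (e.symm h)
  have h6 := congrArg e h5
  simpa using h6

end R29ID
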