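import Pool.Agent.R29.ID.Defs

namespace R29ID

open DihedralGroup
open scoped commutatorElement

private theorem d8_mem (i : ZMod 4) :
    (r i : DihedralGroup 4) ∈ Subgroup.zpowers (r 1 : DihedralGroup 4) := by
  refine ⟨(i.val : ℤ), ?_⟩
  show (r 1 : DihedralGroup 4) ^ (i.val : ℤ) = r i
  rw [zpow_natCast, r_one_pow]
  congr 1
  exact ZMod.natCast_zmod_val i

private def N8 : Subgroup (DihedralGroup 4) where
  carrier := {x | x = 1 ∨ x = r 2}
  mul_mem' := by
    rintro a b (rfl | rfl) (rfl | rfl)
    · left; decide
    · right; decide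
    · right; decide
    · left; decide
  one_mem' := Or.inl rfl
  inv_mem' := by
    rintro a (rfl | rfl)
    · left; decide
    · right; decide

private theorem comm_aux : ∀ a b : DihedralGroup 4, ⁅a, b⁆ = 1 ∨ ⁅a, b⁆ = r 2 := by
  decide

private theorem comm8 : commutator (DihedralGroup 4) = N8 := by
  apply le_antisymm
  · rw [commutator_def, Subgroup.commutator_le]
    intro a _ b _
    exact comm_aux a b
  · intro x hx
    rcases hx with rfl | rfl
    · exact one_mem _
    · have h : (r 2 : DihedralGroup 4) = ⁅(r 1 : DihedralGroup 4), (sr 0 : DihedralGroup 4)⁆ := by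
        decide
      rw [h]
      exact Subgroup.commutator_mem_commutator (Subgroup.mem_top _) (Subgroup.mem_top _)

private theorem card8 : Nat.card (commutator (DihedralGroup 4)) = 2 := by
  rw [comm8]
  have h : (N8 : Set (DihedralGroup 4)) = {1, r 2} := by
    ext x
    constructor
    · intro hx
      exact hx
    · intro hx
      exact hx
  have h2 : Nat.card N8 = Set.ncard (N8 : Set (DihedralGroup 4)) := rfl
  rw [h2, h, Set.ncard_pair (by decide)]

theorem d8 : D8 := by
  refine ⟨?_, ?_⟩
  · have : Fact (Nat.Prime 2) := ⟨Nat.prime_two⟩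
    exact ⟨mulEquivOfPrimeCardEq (p := 2) card8 (by simp)⟩
  · refine ⟨Subgroup.zpowers (r 1), ?_, ?_, ?_⟩
    · rw [Subgroup.characteristic_iff_map_le]
      intro φ
      rw [MonoidHom.map_zpowers, Subgroup.zpowers_le]
      show φ (r 1) ∈ Subgroup.zpowers (r 1 : DihedralGroup 4)
      have h1 : φ (r 1) * φ (r 1) ≠ 1 := by
        rw [← map_mul]
        intro h
        have h3 : (r 1 * r 1 : DihedralGroup 4) = 1 := by
          apply φ.injective
          rw [h, map_one]
        revert h3
        decide
      generalize φ (r 1) = y at h1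
      cases y with
      | r i => exact d8_mem i
      | sr i =>
        exfalso
        apply h1
        rw [sr_mul_sr, sub_self]
        rfl
    · infer_instance
    · intro h
      have h1 := h (Subgroup.mem_zpowers (r 1 : DihedralGroup 4))
      rw [Subgroup.mem_center_iff] at h1
      have h2 := h1 (sr 0)
      revert h2
      decide

end R29ID
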