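import Pool.Agent.R29.ID.Defs

/-! ID-DIHC: the commutator subgroup of `DihedralGroup (2 * m) × Y`. -/

namespace R29ID

open DihedralGroup

open scoped commutatorElement

/-- The homomorphism `i ↦ 2 i` from `ZMod m` to `ZMod (2 * m)`. -/
def dbl (m : ℕ) : ZMod m →+ ZMod (2 * m) :=
  ZMod.lift m ⟨zmultiplesHom (ZMod (2 * m)) 2, by
    rw [zmultiplesHom_apply, natCast_zsmul, nsmul_eq_mul]
    have h : (((2 * m : ℕ) : ZMod (2 * m))) = 0 := ZMod.natCast_self _
    push_cast at h
    exact (mul_comm _ _).trans h⟩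

theorem dbl_coe (m : ℕ) (j : ℤ) : dbl m (j : ZMod m) = 2 * (j : ZMod (2 * m)) := by
  unfold dbl
  rw [ZMod.lift_coe]
  show zmultiplesHom (ZMod (2 * m)) 2 j = _
  rw [zmultiplesHom_apply, zsmul_eq_mul]
  exact mul_comm _ _

theorem dbl_injective (m : ℕ) : Function.Injective (dbl m) := by
  rw [injective_iff_map_eq_zero]
  intro x hx
  obtain ⟨j, rfl⟩ := ZMod.intCast_surjective x
  rw [dbl_coe] at hx
  have h1 : ((2 * j : ℤ) : ZMod (2 * m)) = 0 := by push_cast; exact hx
  rw [ZMod.intCast_zmod_eq_zero_iff_dvd] at h1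
  rw [ZMod.intCast_zmod_eq_zero_iff_dvd]
  have h2 : (2 : ℤ) * (m : ℤ) ∣ 2 * j := by exact_mod_cast h1
  exact (mul_dvd_mul_iff_left (by norm_num)).1 h2

/-- The homomorphism `i ↦ r (2 i)`. -/
def rot (m : ℕ) : Multiplicative (ZMod m) →* DihedralGroup (2 * m) where
  toFun x := r (dbl m x.toAdd)
  map_one' := by
    show r (dbl m 0) = 1
    rw [map_zero]
    rfl
  map_mul' x y := by
    show r (dbl m (x.toAdd + y.toAdd)) = _
    rw [map_add, r_mul_r]

theorem rot_injective (m : ℕ) : Function.Injective (rot m) := by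
  intro x y h
  have h1 : r (dbl m x.toAdd) = r (dbl m y.toAdd) := h
  have h2 : dbl m x.toAdd = dbl m y.toAdd := by injection h1
  exact Multiplicative.toAdd.injective (dbl_injective m h2)

theorem mem_rot (m : ℕ) (c : ZMod (2 * m)) : r (2 * c) ∈ (rot m).range := by
  obtain ⟨j, rfl⟩ := ZMod.intCast_surjective c
  refine ⟨Multiplicative.ofAdd (j : ZMod m), ?_⟩
  show r (dbl m (j : ZMod m)) = _
  rw [dbl_coe]

theorem commutator_dih (m : ℕ) : commutator (DihedralGroup (2 * m)) = (rot m).range := by
  apply le_antisymm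
  · rw [commutator_def, Subgroup.commutator_le]
    rintro (a | a) - (b | b) -
    · have h : ⁅(r a : DihedralGroup (2 * m)), r b⁆ = r (2 * (0 : ZMod (2 * m))) := by
        rw [commutatorElement_def, inv_r, inv_r, r_mul_r, r_mul_r, r_mul_r]
        congr 1
        ring
      rw [h]
      exact mem_rot m _
    · have h : ⁅(r a : DihedralGroup (2 * m)), sr b⁆ = r (2 * a) := by
        rw [commutatorElement_def, inv_r, inv_sr, r_mul_sr, sr_mul_r, sr_mul_sr]
        congr 1
        ring
      rw [h]
      exact mem_rot m _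
    · have h : ⁅(sr a : DihedralGroup (2 * m)), r b⁆ = r (2 * (-b)) := by
        rw [commutatorElement_def, inv_r, inv_sr, sr_mul_r, sr_mul_sr, r_mul_r]
        congr 1
        ring
      rw [h]
      exact mem_rot m _
    · have h : ⁅(sr a : DihedralGroup (2 * m)), sr b⁆ = r (2 * (b - a)) := by
        rw [commutatorElement_def, inv_sr, inv_sr, sr_mul_sr, r_mul_sr, sr_mul_sr]
        congr 1
        ring
      rw [h]
      exact mem_rot m _
  · rintro _ ⟨x, rfl⟩
    obtain ⟨j, hj⟩ := ZMod.intCast_surjective x.toAdd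
    have h : rot m x = ⁅(r (j : ZMod (2 * m)) : DihedralGroup (2 * m)), sr 0⁆ := by
      show r (dbl m x.toAdd) = _
      rw [← hj, dbl_coe, commutatorElement_def, inv_r, inv_sr, r_mul_sr, sr_mul_r, sr_mul_sr]
      congr 1
      ring
    rw [h, commutator_def]
    exact Subgroup.commutator_mem_commutator (Subgroup.mem_top _) (Subgroup.mem_top _)

theorem commutator_prod' (A B : Type) [Group A] [Group B] :
    commutator (A × B) = (commutator A).prod (commutator B) := by
  rw [commutator_def, commutator_def, commutator_def, ← Subgroup.commutator_prod_prod,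
    Subgroup.top_prod_top]

theorem dihc : DIHC := by
  intro m _ Y _
  exact ⟨(MulEquiv.subgroupCongr (commutator_prod' _ _)).trans
    ((Subgroup.prodEquiv _ _).trans
      (MulEquiv.prodCongr ((MulEquiv.subgroupCongr (commutator_dih m)).trans
        (MonoidHom.ofInjective (rot_injective m)).symm) (MulEquiv.refl _)))⟩

end R29ID
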