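import Mathlib

/-! Integrals of groups and property (D) (MP_dbca9e_al). -/

namespace R29ID

/-- A group `G` is integrable if some group `K` has commutator subgroup isomorphic to `G`. -/
def Integrable (G : Type) [Group G] : Prop :=
  ∃ (K : Type) (_ : Group K), Nonempty (commutator K ≃* G)

/-- Property (D): every finite group `H` with `H' ≅ G'` is integrable iff `G` is. -/
def PropD (G : Type) [Group G] : Prop :=
  ∀ (H : Type) [Group H] [Finite H], Nonempty (commutator H ≃* commutator G) →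
    (Integrable H ↔ Integrable G)

/-- `H` has a characteristic cyclic subgroup which is not central. -/
def HasCyc (H : Type) [Group H] : Prop :=
  ∃ R : Subgroup H, R.Characteristic ∧ IsCyclic R ∧ ¬ R ≤ Subgroup.center H

/-- ID-CRIT -/
def CRIT : Prop := ∀ (H : Type) [Group H], HasCyc H → ¬ Integrable H

/-- ID-UT5 -/
def UT5 : Prop := ∀ (R : Type) [CommRing R] [Finite R],
  ∃ (K : Type) (_ : Group K) (_ : Finite K),
    Nonempty (commutator (commutator K) ≃* Multiplicative R)

/-- ID-HEIS -/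
def HEIS : Prop := ∀ (R : Type) [CommRing R] [Finite R],
  ∃ (Y : Type) (_ : Group Y) (_ : Finite Y),
    Nonempty (commutator Y ≃* Multiplicative R) ∧ commutator Y ≤ Subgroup.center Y

/-- ID-DIHC -/
def DIHC : Prop := ∀ (m : ℕ) (_ : 3 ≤ m) (Y : Type) [Group Y],
  Nonempty (commutator (DihedralGroup (2 * m) × Y) ≃* Multiplicative (ZMod m) × commutator Y)

/-- ID-DIHR -/
def DIHR : Prop := ∀ (m : ℕ) (_ : 3 ≤ m) (Y : Type) [Group Y],
  commutator Y ≤ Subgroup.center Y → HasCyc (DihedralGroup (2 * m) × Y)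

/-- ID-D8 -/
def D8 : Prop :=
  Nonempty (commutator (DihedralGroup 4) ≃* Multiplicative (ZMod 2)) ∧ HasCyc (DihedralGroup 4)

/-- ID-P2 -/
def P2 : Prop := ∃ (P : Type) (_ : Group P) (_ : Finite P),
  Nonempty (commutator P ≃* Multiplicative (Fin 2 → ZMod 2)) ∧ HasCyc P

/-- ID-PK -/
def PK : Prop := ∀ n : ℕ, 2 ≤ n → ∃ (P : Type) (_ : Group P) (_ : Finite P),
  Nonempty (commutator P ≃* Multiplicative (Fin n → ZMod 2) × Multiplicative (ZMod 2)) ∧ HasCyc P

/-- ID-AB -/
def AB : Prop := ∀ (N : Type) [CommGroup N] [Finite N] [Nontrivial N],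
  (∃ (R : Type) (_ : CommRing R) (_ : Finite R), Nonempty (N ≃* Multiplicative R)) ∧
  ((∃ (m : ℕ) (_ : 3 ≤ m) (R : Type) (_ : CommRing R) (_ : Finite R),
      Nonempty (N ≃* Multiplicative (ZMod m) × Multiplicative R)) ∨
   (∃ k : ℕ, 1 ≤ k ∧ Nonempty (N ≃* Multiplicative (Fin k → ZMod 2))))

/-- ID-CPL -/
def CPL : Prop := ∀ (H : Type) [Group H] [Finite H],
  commutator (commutator H) = ⊤ → Subgroup.center (commutator H) = ⊥ →
  (∀ φ : MulAut (commutator H), ∃ g : commutator H, φ = MulAut.conj g) → Integrable H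

/-- ID-NSD -/
def NSD : Prop := ∀ (H : Type) [Group H] (V : Subgroup (commutator H)),
  V.Characteristic → derivedSeries (MulAut V) 2 = ⊥ →
  ¬ (⊤ : Subgroup (commutator H)) ≤ Subgroup.centralizer (V : Set (commutator H)) →
  ¬ Integrable H

/-- ID-S4 -/
def S4V : Prop := ∃ V : Subgroup (commutator (Equiv.Perm (Fin 4))),
  V.Characteristic ∧ derivedSeries (MulAut V) 2 = ⊥ ∧
  ¬ (⊤ : Subgroup (commutator (Equiv.Perm (Fin 4)))) ≤
    Subgroup.centralizer (V : Set (commutator (Equiv.Perm (Fin 4))))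

end R29ID
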