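import Pool.Agent.R29.ID.Defs

/-! MP_dbca9e_al, piece ID-HEIS: the Heisenberg group over a commutative ring. -/

set_option autoImplicit false

open scoped commutatorElement

namespace R29ID

namespace HeisAux

/-- triples -/
@[ext] structure He (R : Type) where
  a : R
  b : R
  c : R

variable {R : Type} [CommRing R]

instance : Mul (He R) := ⟨fun x y => ⟨x.a + y.a, x.b + y.b, x.c + y.c + x.a * y.b⟩⟩
instance : One (He R) := ⟨⟨0, 0, 0⟩⟩
instance : Inv (He R) := ⟨fun x => ⟨-x.a, -x.b, -x.c + x.a * x.b⟩⟩

@[simp] lemma mul_a (x y : He R) : (x * y).a = x.a + y.a := rfl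
@[simp] lemma mul_b (x y : He R) : (x * y).b = x.b + y.b := rfl
@[simp] lemma mul_c (x y : He R) : (x * y).c = x.c + y.c + x.a * y.b := rfl
@[simp] lemma one_a : (1 : He R).a = 0 := rfl
@[simp] lemma one_b : (1 : He R).b = 0 := rfl
@[simp] lemma one_c : (1 : He R).c = 0 := rfl
@[simp] lemma inv_a (x : He R) : (x⁻¹).a = -x.a := rfl
@[simp] lemma inv_b (x : He R) : (x⁻¹).b = -x.b := rfl
@[simp] lemma inv_c (x : He R) : (x⁻¹).c = -x.c + x.a * x.b := rfl

instance : Group (He R) :=
  Group.ofLeftAxioms (fun x y z => by ext <;> simp <;> ring) (fun x => by ext <;> simp)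
    (fun x => by ext <;> simp)

instance [Finite R] : Finite (He R) :=
  Finite.of_injective (fun x : He R => (x.a, x.b, x.c)) (by
    rintro ⟨a, b, c⟩ ⟨a', b', c'⟩ h
    simp only [Prod.mk.injEq] at h
    obtain ⟨h1, h2, h3⟩ := h
    subst h1 h2 h3
    rfl)

/-- the centre -/
def io (R : Type) [CommRing R] : Multiplicative R →* He R where
  toFun r := ⟨0, 0, r.toAdd⟩
  map_one' := rfl
  map_mul' r s := by ext <;> simp

lemma io_inj : Function.Injective (io R) := by
  intro r s h
  have := congrArg He.c h
  exact this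

lemma comm_eq : commutator (He R) = (io R).range := by
  apply le_antisymm
  · rw [commutator_def, Subgroup.commutator_le]
    intro x _ y _
    refine ⟨Multiplicative.ofAdd (x.a * y.b - y.a * x.b), ?_⟩
    rw [commutatorElement_def]
    ext
    · simp [io]
    · simp [io]
    · simp [io]
      ring
  · rintro _ ⟨r, rfl⟩
    have e : io R r = ⁅(⟨1, 0, 0⟩ : He R), (⟨0, r.toAdd, 0⟩ : He R)⁆ := by
      rw [commutatorElement_def]
      ext
      · simp [io]
      · simp [io]
      · simp [io]
    rw [e, commutator_def]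
    exact Subgroup.commutator_mem_commutator (Subgroup.mem_top _) (Subgroup.mem_top _)

end HeisAux

open HeisAux in
theorem heis : HEIS := by
  intro R _ _
  refine ⟨He R, inferInstance, inferInstance, ?_, ?_⟩
  · exact ⟨(MulEquiv.subgroupCongr comm_eq).trans (MonoidHom.ofInjective io_inj).symm⟩
  · rw [comm_eq]
    rintro _ ⟨r, rfl⟩
    rw [Subgroup.mem_center_iff]
    intro g
    ext
    · simp [io]
    · simp [io]
    · simp [io]
      ring

end R29ID
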