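import Pool.Agent.R29.ID.Defs

/-! ID-P2: a group of order 64 with derived subgroup of type (2,2) and a characteristic cyclic
noncentral subgroup (helper278). -/

namespace R29ID

namespace P2aux

def d (x : ZMod 2) : ZMod 4 := if x = 0 then 0 else 2
def c (j : ZMod 4) : ZMod 2 := if j = 0 ∨ j = 2 then 0 else 1
def c2 (j : ZMod 4) : ZMod 2 := if j = 0 ∨ j = 1 then 0 else 1

theorem d_add : ∀ x y : ZMod 2, d (x + y) = d x + d y := by decide
theorem c_add : ∀ j k : ZMod 4, c (j + k) = c j + c k := by decide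
theorem c2_add : ∀ j k : ZMod 4, c2 (j + k) = c2 j + c2 k + c j * c k := by decide
theorem c_zero : c 0 = 0 := by decide
theorem c2_zero : c2 0 = 0 := by decide
theorem d_zero : d 0 = 0 := by decide

@[ext] structure Pg where
  z : ZMod 4
  f : ZMod 2
  g : ZMod 2
  j : ZMod 4

instance : Mul Pg := ⟨fun x y => ⟨x.z + y.z + d (c x.j * y.g + c2 x.j * y.f), x.f + y.f,
  x.g + y.g + c x.j * y.f, x.j + y.j⟩⟩

instance : One Pg := ⟨⟨0, 0, 0, 0⟩⟩

instance : Inv Pg := ⟨fun x => ⟨-x.z - d (c (-x.j) * x.g + c2 (-x.j) * x.f), -x.f,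
  -x.g - c (-x.j) * x.f, -x.j⟩⟩

theorem mul_def (x y : Pg) : x * y = ⟨x.z + y.z + d (c x.j * y.g + c2 x.j * y.f), x.f + y.f,
  x.g + y.g + c x.j * y.f, x.j + y.j⟩ := rfl

theorem one_def : (1 : Pg) = ⟨0, 0, 0, 0⟩ := rfl

theorem inv_def (x : Pg) : x⁻¹ = ⟨-x.z - d (c (-x.j) * x.g + c2 (-x.j) * x.f), -x.f,
  -x.g - c (-x.j) * x.f, -x.j⟩ := rfl

instance : Group Pg := Group.ofLeftAxioms
  (by
    intro x y w
    simp only [mul_def]
    ext
    · simp only [c_add, c2_add, mul_add, add_mul, d_add, mul_assoc]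
      ring
    · simp only
      ring
    · simp only [c_add, mul_add, add_mul]
      ring
    · simp only
      ring)
  (by
    intro x
    simp only [mul_def, one_def]
    ext <;> simp [c_zero, c2_zero, d_zero])
  (by
    intro x
    simp only [mul_def, one_def, inv_def]
    ext
    · simp only
      ring
    · simp only
      ring
    · simp only
      ring
    · simp only
      ring)

instance : Finite Pg := by
  have : Function.Injective (fun x : Pg => (x.z, x.f, x.g, x.j)) := by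
    intro x y h
    simp only [Prod.mk.injEq] at h
    exact Pg.ext h.1 h.2.1 h.2.2.1 h.2.2.2
  exact Finite.of_injective _ this

/-- parity -/
def pr (z : ZMod 4) : ZMod 2 := if z = 0 ∨ z = 2 then 0 else 1
theorem pr_add : ∀ x y : ZMod 4, pr (x + y) = pr x + pr y := by decide
theorem pr_d : ∀ x : ZMod 2, pr (d x) = 0 := by decide
theorem pr_zero : pr 0 = 0 := by decide

/-- the quotient -/
def qt : Pg →* Multiplicative (ZMod 2 × ZMod 2 × ZMod 4) where
  toFun x := Multiplicative.ofAdd (pr x.z, x.f, x.j)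
  map_one' := by
    simp only [one_def, pr_zero]
    rfl
  map_mul' := by
    intro x y
    simp only [mul_def, pr_add, pr_d, add_zero]
    rfl

theorem comm_sub {x : Pg} (hx : x ∈ commutator Pg) : pr x.z = 0 ∧ x.f = 0 ∧ x.j = 0 := by
  have h1 : x ∈ qt.ker := Abelianization.commutator_subset_ker qt hx
  have h2 : qt x = 1 := h1
  have h3 : (pr x.z, x.f, x.j) = (0 : ZMod 2 × ZMod 2 × ZMod 4) := h2
  simp only [Prod.mk_eq_zero] at h3
  exact h3

/-- the embedding -/
def em : Multiplicative (Fin 2 → ZMod 2) →* Pg where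
  toFun v := ⟨d (Multiplicative.toAdd v 0), 0, Multiplicative.toAdd v 1, 0⟩
  map_one' := by
    simp only [one_def]
    rfl
  map_mul' := by
    intro v w
    simp only [mul_def, toAdd_mul, Pi.add_apply, d_add, c_zero, c2_zero, zero_mul, add_zero, d_zero]

theorem d_inj : ∀ x y : ZMod 2, d x = d y → x = y := by decide

theorem em_inj : Function.Injective em := by
  intro v w h
  have h0 : d (Multiplicative.toAdd v 0) = d (Multiplicative.toAdd w 0) := congrArg Pg.z h
  have h1 : Multiplicative.toAdd v 1 = Multiplicative.toAdd w 1 := congrArg Pg.g h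
  have : Multiplicative.toAdd v = Multiplicative.toAdd w := by
    funext i
    fin_cases i
    · exact d_inj _ _ h0
    · exact h1
  exact this

theorem mem1 : (⟨2, 0, 0, 0⟩ : Pg) ∈ commutator Pg := by
  have h := Subgroup.commutator_mem_commutator (H₁ := (⊤ : Subgroup Pg)) (H₂ := ⊤)
    (Subgroup.mem_top (⟨0, 0, 0, 1⟩ : Pg)) (Subgroup.mem_top (⟨0, 0, 1, 0⟩ : Pg))
  have e : (⟨0, 0, 0, 1⟩ : Pg) * ⟨0, 0, 1, 0⟩ * (⟨0, 0, 0, 1⟩ : Pg)⁻¹ * (⟨0, 0, 1, 0⟩ : Pg)⁻¹ =
      ⟨2, 0, 0, 0⟩ := by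
    simp only [mul_def, inv_def]
    ext <;> decide
  rw [commutatorElement_def, e] at h
  exact h

theorem mem2 : (⟨0, 0, 1, 0⟩ : Pg) ∈ commutator Pg := by
  have h := Subgroup.commutator_mem_commutator (H₁ := (⊤ : Subgroup Pg)) (H₂ := ⊤)
    (Subgroup.mem_top (⟨0, 0, 0, 1⟩ : Pg)) (Subgroup.mem_top (⟨0, 1, 0, 0⟩ : Pg))
  have e : (⟨0, 0, 0, 1⟩ : Pg) * ⟨0, 1, 0, 0⟩ * (⟨0, 0, 0, 1⟩ : Pg)⁻¹ * (⟨0, 1, 0, 0⟩ : Pg)⁻¹ =
      ⟨0, 0, 1, 0⟩ := by
    simp only [mul_def, inv_def]
    ext <;> decide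
  rw [commutatorElement_def, e] at h
  exact h

theorem two_cases : ∀ x : ZMod 2, x = 0 ∨ x = 1 := by decide

theorem four_cases : ∀ x : ZMod 4, pr x = 0 → x = 0 ∨ x = 2 := by decide

theorem range_eq : em.range = commutator Pg := by
  apply le_antisymm
  · rintro _ ⟨v, rfl⟩
    have hv : em v = ⟨d (Multiplicative.toAdd v 0), 0, 0, 0⟩ *
        ⟨0, 0, Multiplicative.toAdd v 1, 0⟩ := by
      simp only [mul_def, c_zero, c2_zero, zero_mul, add_zero, d_zero, zero_add]
      rfl
    rw [hv]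
    refine mul_mem ?_ ?_
    · rcases two_cases (Multiplicative.toAdd v 0) with h | h
      · rw [h, d_zero]
        exact one_mem _
      · rw [h]
        exact mem1
    · rcases two_cases (Multiplicative.toAdd v 1) with h | h
      · rw [h]
        exact one_mem _
      · rw [h]
        exact mem2
  · intro x hx
    obtain ⟨h1, h2, h3⟩ := comm_sub hx
    rcases four_cases _ h1 with h | h
    · refine ⟨Multiplicative.ofAdd ![0, x.g], ?_⟩
      refine Pg.ext ?_ h2.symm rfl h3.symm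
      rw [h]
      rfl
    · refine ⟨Multiplicative.ofAdd ![1, x.g], ?_⟩
      refine Pg.ext ?_ h2.symm rfl h3.symm
      rw [h]
      rfl

/-- the generator -/
def rr : Pg := ⟨1, 0, 1, 0⟩

theorem cen_aux : ∀ (z : ZMod 4) (f g : ZMod 2) (j : ZMod 4),
    z + 0 + d (c j * 1 + c2 j * 0) = 0 + z + d (c 0 * g + c2 0 * f) →
    z + 0 + d (c j * 0 + c2 j * 1) = 0 + z + d (c 0 * g + c2 0 * f) →
    z + 0 + d (c j * 0 + c2 j * 0) = 0 + z + d (c 1 * g + c2 1 * f) →
    g + 0 + c j * 0 = 0 + g + c 1 * f → f = 0 ∧ g = 0 ∧ j = 0 := by decide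

theorem cen_sub {x : Pg} (hx : x ∈ Subgroup.center Pg) : x.f = 0 ∧ x.g = 0 ∧ x.j = 0 := by
  rw [Subgroup.mem_center_iff] at hx
  have h1 := (hx ⟨0, 0, 1, 0⟩).symm
  have h2 := (hx ⟨0, 1, 0, 0⟩).symm
  have h3 := (hx ⟨0, 0, 0, 1⟩).symm
  exact cen_aux x.z x.f x.g x.j (congrArg Pg.z h1) (congrArg Pg.z h2) (congrArg Pg.z h3)
    (congrArg Pg.g h3)

theorem cen_mem : (⟨1, 0, 0, 0⟩ : Pg) ∈ Subgroup.center Pg := by
  rw [Subgroup.mem_center_iff]
  intro x
  simp only [mul_def]
  ext
  · simp only [mul_zero, add_zero, d_zero, c_zero, c2_zero, zero_mul]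
    ring
  · simp
  · simp only [mul_zero, add_zero, d_zero, c_zero, c2_zero, zero_mul]
    ring
  · simp

theorem rr_not : rr ∉ Subgroup.center Pg := fun h => by
  have := (cen_sub h).2.1
  exact absurd this (by decide)

theorem rr_sq : rr * rr ≠ 1 := fun h => by
  have h1 : (rr * rr).z = (1 : Pg).z := congrArg Pg.z h
  exact absurd h1 (by decide)

theorem odd_cases : ∀ (z : ZMod 4), z + z + d (c 0 * 1 + c2 0 * 0) ≠ 0 → z = 1 ∨ z = 3 := by decide

theorem hasCyc : HasCyc Pg := by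
  refine ⟨Subgroup.zpowers rr, ?_, inferInstance, fun h => rr_not (h (Subgroup.mem_zpowers _))⟩
  rw [Subgroup.characteristic_iff_le_comap]
  intro φ
  rw [Subgroup.zpowers_le, Subgroup.mem_comap]
  have hr : rr = ⟨1, 0, 0, 0⟩ * ⟨0, 0, 1, 0⟩ := by
    simp only [mul_def, rr]
    ext <;> decide
  have hz : φ ⟨1, 0, 0, 0⟩ ∈ Subgroup.center Pg := by
    have h1 : (Subgroup.center Pg).map φ.toMonoidHom = Subgroup.center Pg :=
      Subgroup.characteristic_iff_map_eq.1 inferInstance φ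
    rw [← h1]
    exact Subgroup.mem_map_of_mem _ cen_mem
  have hw : φ ⟨0, 0, 1, 0⟩ ∈ commutator Pg := by
    have h1 : (commutator Pg).map φ.toMonoidHom = commutator Pg :=
      Subgroup.characteristic_iff_map_eq.1 inferInstance φ
    rw [← h1]
    exact Subgroup.mem_map_of_mem _ mem2
  obtain ⟨z1, z2, z3⟩ := cen_sub hz
  obtain ⟨w1, w2, w3⟩ := comm_sub hw
  have hφ : φ rr = φ ⟨1, 0, 0, 0⟩ * φ ⟨0, 0, 1, 0⟩ := by
    rw [← map_mul, ← hr]
  -- coordinates
  have hf : (φ rr).f = 0 := by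
    rw [hφ]
    show (φ ⟨1, 0, 0, 0⟩).f + (φ ⟨0, 0, 1, 0⟩).f = 0
    rw [z1, w2, add_zero]
  have hj : (φ rr).j = 0 := by
    rw [hφ]
    show (φ ⟨1, 0, 0, 0⟩).j + (φ ⟨0, 0, 1, 0⟩).j = 0
    rw [z3, w3, add_zero]
  have hg : (φ rr).g = 1 := by
    rcases two_cases (φ rr).g with h | h
    · exfalso
      have hc : φ rr ∈ Subgroup.center Pg := by
        rw [Subgroup.mem_center_iff]
        intro x
        have e : φ rr = ⟨(φ rr).z, 0, 0, 0⟩ := Pg.ext rfl hf h hj
        rw [e]
        simp only [mul_def]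
        ext
        · simp only [mul_zero, add_zero, d_zero, c_zero, c2_zero, zero_mul]
          ring
        · simp
        · simp only [mul_zero, add_zero, d_zero, c_zero, c2_zero, zero_mul]
          ring
        · simp
      apply rr_not
      have h1 : (Subgroup.center Pg).comap φ.toMonoidHom = Subgroup.center Pg :=
        Subgroup.characteristic_iff_comap_eq.1 inferInstance φ
      rw [← h1]
      exact hc
    · exact h
  have hsq : (φ rr).z = 1 ∨ (φ rr).z = 3 := by
    apply odd_cases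
    intro hcon
    apply rr_sq
    apply φ.injective
    rw [map_mul, map_one]
    have e : φ rr = ⟨(φ rr).z, 0, 1, 0⟩ := Pg.ext rfl hf hg hj
    rw [e]
    simp only [mul_def, one_def]
    ext
    · exact hcon
    · simp only
      decide
    · simp only
      decide
    · simp only
      decide
  show φ rr ∈ Subgroup.zpowers rr
  rcases hsq with h | h
  · have e : φ rr = rr := Pg.ext h hf hg hj
    rw [e]
    exact Subgroup.mem_zpowers _
  · have e : φ rr = rr⁻¹ := by
      refine Pg.ext (h.trans ?_) (hf.trans ?_) (hg.trans ?_) (hj.trans ?_)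
      · show (3 : ZMod 4) = -1 - d (c (-0) * 1 + c2 (-0) * 0)
        decide
      · show (0 : ZMod 2) = -0
        decide
      · show (1 : ZMod 2) = -1 - c (-0) * 0
        decide
      · show (0 : ZMod 4) = -0
        decide
    rw [e]
    exact inv_mem (Subgroup.mem_zpowers _)

end P2aux

open P2aux

theorem p2 : P2 := by
  refine ⟨Pg, inferInstance, inferInstance, ⟨?_⟩, hasCyc⟩
  rw [← range_eq]
  exact (MonoidHom.ofInjective em_inj).symm

end R29ID
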