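import Pool.Agent.R29.ID.Defs

set_option autoImplicit false

namespace R29ID.PKproof

open DihedralGroup
open scoped commutatorElement

theorem d8comm : Nonempty (commutator (DihedralGroup 4) ≃* Multiplicative (ZMod 2)) := by
  have h : commutator (DihedralGroup 4) = Subgroup.zpowers (r 2) := by
    apply le_antisymm
    · rw [commutator_def, Subgroup.commutator_le]
      intro a _ b _
      have : ∀ a b : DihedralGroup 4, ⁅a, b⁆ = 1 ∨ ⁅a, b⁆ = r 2 := by decide
      rcases this a b with h | h
      · rw [h]; exact one_mem _
      · rw [h]; exact Subgroup.mem_zpowers _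
    · rw [Subgroup.zpowers_le]
      have : (r 2 : DihedralGroup 4) = ⁅(r 1 : DihedralGroup 4), (sr 0 : DihedralGroup 4)⁆ := by decide
      rw [this]
      exact Subgroup.commutator_mem_commutator (Subgroup.mem_top _) (Subgroup.mem_top _)
  have ho : orderOf (r 2 : DihedralGroup 4) = 2 := orderOf_eq_prime (by decide) (by decide)
  rw [h]
  exact ⟨mulEquivOfPrimeCardEq (p := 2) (by rw [Nat.card_zpowers, ho]) (by simp)⟩

/-- the field with `2 ^ n` elements -/
abbrev F (n : ℕ) : Type := GaloisField 2 n

/-- the action -/
noncomputable def ph (n : ℕ) : (F n)ˣ →* MulAut (Multiplicative (F n)) where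
  toFun u := AddEquiv.toMultiplicative (DistribMulAction.toAddEquiv (F n) u)
  map_one' := MulEquiv.ext fun b => one_smul (F n)ˣ b.toAdd
  map_mul' u v := MulEquiv.ext fun b => mul_smul u v b.toAdd

/-- the affine group -/
abbrev K (n : ℕ) : Type := Multiplicative (F n) ⋊[ph n] (F n)ˣ

theorem ph_apply {n : ℕ} (u : (F n)ˣ) (b : Multiplicative (F n)) :
    ph n u b = Multiplicative.ofAdd ((u : F n) * b.toAdd) := rfl

theorem exists_unit {n : ℕ} (hn : 2 ≤ n) : ∃ u : (F n)ˣ, (u : F n) ≠ 1 := by
  classical
  by_contra hc
  push Not at hc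
  have hcard : Nat.card (F n) = 2 ^ n := GaloisField.card 2 n (by omega)
  have : Finite (F n) := Nat.finite_of_card_ne_zero (by rw [hcard]; positivity)
  have := Fintype.ofFinite (F n)
  have h2 : (Finset.univ : Finset (F n)) ⊆ {0, 1} := by
    intro x _
    by_cases hx : x = 0
    · simp [hx]
    · have := hc (Units.mk0 x hx)
      simp only [Units.val_mk0] at this
      simp [this]
  have h3 := Finset.card_le_card h2
  have h4 : ({0, 1} : Finset (F n)).card ≤ 2 := Finset.card_le_two
  rw [Finset.card_univ, ← Nat.card_eq_fintype_card, hcard] at h3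
  have h5 : 2 ^ 2 ≤ 2 ^ n := Nat.pow_le_pow_right (by norm_num) hn
  omega

theorem odd_unit {n : ℕ} (hn : 2 ≤ n) (u : (F n)ˣ) : Odd (orderOf u) := by
  have hcard : Nat.card (F n) = 2 ^ n := GaloisField.card 2 n (by omega)
  have h1 : orderOf u ∣ 2 ^ n - 1 := by
    have := orderOf_dvd_natCard u
    rwa [Nat.card_units, hcard] at this
  have h2 : Odd (2 ^ n - 1) := by
    obtain ⟨m, rfl⟩ : ∃ m, n = m + 1 := ⟨n - 1, by omega⟩
    refine ⟨2 ^ m - 1, ?_⟩
    have : 1 ≤ 2 ^ m := Nat.one_le_two_pow
    rw [pow_succ]
    omega
  exact Odd.of_dvd_nat h2 h1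

theorem odd_inr {n : ℕ} (hn : 2 ≤ n) (u : (F n)ˣ) :
    Odd (orderOf (SemidirectProduct.inr u : K n)) := by
  rw [orderOf_injective (SemidirectProduct.inr : (F n)ˣ →* K n) SemidirectProduct.inr_injective u]
  exact odd_unit hn u

theorem odd_conj {n : ℕ} (hn : 2 ≤ n) (u : (F n)ˣ) (g : K n) :
    Odd (orderOf (g * SemidirectProduct.inr u * g⁻¹ : K n)) := by
  have := MulEquiv.orderOf_eq (MulAut.conj g) (SemidirectProduct.inr u : K n)
  rw [MulAut.conj_apply] at this
  rw [this]
  exact odd_inr hn u

theorem key {n : ℕ} (hn : 2 ≤ n) (x : K n) (hx : ∀ y : K n, Odd (orderOf y) → Commute x y) :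
    x = 1 := by
  obtain ⟨u, hu⟩ := exists_unit hn
  have hu' : (u : F n) - 1 ≠ 0 := sub_ne_zero.2 hu
  have h1 := congrArg SemidirectProduct.left (hx _ (odd_inr hn u)).eq
  simp only [SemidirectProduct.mul_left, SemidirectProduct.left_inr, SemidirectProduct.right_inr,
    map_one, mul_one, one_mul, ph_apply] at h1
  have h1' : x.left.toAdd = (u : F n) * x.left.toAdd := congrArg Multiplicative.toAdd h1
  have h2 : x.left.toAdd = 0 := by
    have : ((u : F n) - 1) * x.left.toAdd = 0 := by
      rw [sub_mul, one_mul, ← h1', sub_self]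
    rcases mul_eq_zero.1 this with h | h
    · exact absurd h hu'
    · exact h
  have h2' : x.left = 1 := h2
  set c : K n := SemidirectProduct.inl (Multiplicative.ofAdd (1 : F n)) with hc
  have h3 := congrArg SemidirectProduct.left (hx _ (odd_conj hn u c)).eq
  simp only [SemidirectProduct.mul_left, SemidirectProduct.mul_right,
    SemidirectProduct.inv_left, SemidirectProduct.inv_right, hc,
    SemidirectProduct.left_inl, SemidirectProduct.right_inl, SemidirectProduct.left_inr,
    SemidirectProduct.right_inr, map_one, mul_one, one_mul, h2', inv_one, MulAut.one_apply,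
    map_mul, map_inv] at h3
  have h3' := congrArg Multiplicative.toAdd h3
  simp only [ph_apply, toAdd_mul, toAdd_inv, toAdd_ofAdd, mul_one] at h3'
  have h4 : ((x.right : F n) - 1) * ((u : F n) - 1) = 0 := by
    linear_combination (-1 : F n) * h3'
  have h5 : (x.right : F n) = 1 := by
    rcases mul_eq_zero.1 h4 with h | h
    · exact sub_eq_zero.1 h
    · exact absurd h hu'
  exact SemidirectProduct.ext h2' (Units.ext h5)

theorem kcomm {n : ℕ} (hn : 2 ≤ n) :
    Nonempty (commutator (K n) ≃* Multiplicative (Fin n → ZMod 2)) := by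
  obtain ⟨u, hu⟩ := exists_unit hn
  have hu' : (u : F n) - 1 ≠ 0 := sub_ne_zero.2 hu
  have h : commutator (K n) = (SemidirectProduct.inl : Multiplicative (F n) →* K n).range := by
    apply le_antisymm
    · rw [SemidirectProduct.range_inl_eq_ker_rightHom]
      exact Abelianization.commutator_subset_ker _
    · rintro _ ⟨a, rfl⟩
      set b : Multiplicative (F n) := Multiplicative.ofAdd (((u : F n) - 1)⁻¹ * a.toAdd) with hb
      have h1 : (SemidirectProduct.inl a : K n) =
          ⁅(SemidirectProduct.inr u : K n), (SemidirectProduct.inl b : K n)⁆ := by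
        rw [commutatorElement_def]
        refine SemidirectProduct.ext ?_ ?_
        · simp only [SemidirectProduct.mul_left, SemidirectProduct.mul_right,
            SemidirectProduct.inv_left, SemidirectProduct.inv_right,
            SemidirectProduct.left_inl, SemidirectProduct.right_inl, SemidirectProduct.left_inr,
            SemidirectProduct.right_inr, map_one, mul_one, one_mul, inv_one, map_inv]
          apply Multiplicative.toAdd.injective
          simp only [toAdd_mul, toAdd_inv, ph_apply, toAdd_ofAdd, hb, MulAut.one_apply,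
            mul_inv_cancel, Units.val_one, one_mul]
          field_simp
          try ring
        · simp
      rw [h1]
      exact Subgroup.commutator_mem_commutator (Subgroup.mem_top _) (Subgroup.mem_top _)
  have hfin : Module.finrank (ZMod 2) (F n) = n := GaloisField.finrank 2 (by omega)
  have hcard : Nat.card (F n) = 2 ^ n := GaloisField.card 2 n (by omega)
  have : Finite (F n) := Nat.finite_of_card_ne_zero (by rw [hcard]; positivity)
  have e1 : F n ≃ₗ[ZMod 2] (Fin n → ZMod 2) := (Module.finBasisOfFinrankEq _ _ hfin).equivFun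
  rw [h]
  exact ⟨(MonoidHom.ofInjective SemidirectProduct.inl_injective).symm.trans
    e1.toAddEquiv.toMultiplicative⟩

end R29ID.PKproof

open R29ID.PKproof DihedralGroup in
theorem R29ID.pk : R29ID.PK := by
  intro n hn
  have hcard : Nat.card (F n) = 2 ^ n := GaloisField.card 2 n (by omega)
  have : Finite (F n) := Nat.finite_of_card_ne_zero (by rw [hcard]; positivity)
  have : Finite (K n) := Finite.of_equiv _ (SemidirectProduct.equivProd (φ := ph n)).symm
  refine ⟨K n × DihedralGroup 4, inferInstance, inferInstance, ?_, ?_⟩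
  · obtain ⟨e1⟩ := kcomm hn
    obtain ⟨e2⟩ := d8comm
    have h : commutator (K n × DihedralGroup 4) =
        (commutator (K n)).prod (commutator (DihedralGroup 4)) := by
      rw [commutator_def, commutator_def, commutator_def, ← Subgroup.commutator_prod_prod,
        Subgroup.top_prod_top]
    rw [h]
    exact ⟨(Subgroup.prodEquiv _ _).trans (MulEquiv.prodCongr e1 e2)⟩
  · set S : Set (K n × DihedralGroup 4) :=
      {x | orderOf x = 4 ∧ ∀ y, Odd (orderOf y) → Commute x y} with hS
    have hin : ((1 : K n), (r 1 : DihedralGroup 4)) ∈ S := by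
      refine ⟨?_, ?_⟩
      · have := orderOf_injective (MonoidHom.inr (K n) (DihedralGroup 4))
          (fun a b h => congrArg Prod.snd h) (r 1)
        rw [DihedralGroup.orderOf_r_one] at this
        exact this
      · rintro ⟨k, d⟩ hy
        have h1 : orderOf d ∣ orderOf (k, d) :=
          orderOf_dvd_of_pow_eq_one (by
            have := congrArg Prod.snd (pow_orderOf_eq_one (k, d))
            exact this)
        have h8 : ∀ d : DihedralGroup 4, d ^ 8 = 1 := by decide
        have h2 : orderOf d ∣ 2 ^ 3 := orderOf_dvd_of_pow_eq_one (h8 d)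
        have h3 : Nat.Coprime (orderOf (k, d)) (2 ^ 3) :=
          Nat.Coprime.pow_right 3 (Nat.coprime_two_right.2 hy)
        have h4 : orderOf d = 1 := Nat.eq_one_of_dvd_coprimes h3 h1 h2
        rw [orderOf_eq_one_iff] at h4
        subst h4
        exact Prod.ext (by simp) (by simp)
    have hsub : Subgroup.closure S ≤ Subgroup.zpowers ((1 : K n), (r 1 : DihedralGroup 4)) := by
      rw [Subgroup.closure_le]
      rintro ⟨k, d⟩ ⟨h1, h2⟩
      have hk : k = 1 := key hn k (fun y hy => by
        have h3 := h2 (y, 1) (by
          have := orderOf_injective (MonoidHom.inl (K n) (DihedralGroup 4))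
            (fun a b h => congrArg Prod.fst h) y
          change Odd (orderOf ((MonoidHom.inl (K n) (DihedralGroup 4)) y))
          rw [this]
          exact hy)
        exact congrArg Prod.fst h3)
      subst hk
      have hd : d ^ 2 ≠ 1 := by
        intro hd
        have : orderOf ((1 : K n), d) ∣ 2 := orderOf_dvd_of_pow_eq_one (Prod.ext (by simp) hd)
        rw [h1] at this
        exact absurd this (by decide)
      have hdd : ∀ d : DihedralGroup 4, d ^ 2 ≠ 1 → d = r 1 ∨ d = r 3 := by decide
      rcases hdd d hd with rfl | rfl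
      · exact Subgroup.mem_zpowers _
      · have h3 : (r 3 : DihedralGroup 4) = (r 1) ^ 3 := by decide
        have : ((1 : K n), (r 3 : DihedralGroup 4)) = ((1 : K n), (r 1 : DihedralGroup 4)) ^ 3 :=
          Prod.ext (by simp) (by rw [h3]; rfl)
        rw [this]
        exact Subgroup.pow_mem _ (Subgroup.mem_zpowers _) 3
    refine ⟨Subgroup.closure S, ?_, ?_, ?_⟩
    · rw [Subgroup.characteristic_iff_map_le]
      intro f
      rw [MonoidHom.map_closure]
      apply Subgroup.closure_mono
      rintro _ ⟨x, ⟨h1, h2⟩, rfl⟩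
      refine ⟨?_, ?_⟩
      · have := MulEquiv.orderOf_eq f x
        exact this.trans h1
      · intro y hy
        have h3 := h2 (f.symm y) (by rw [MulEquiv.orderOf_eq f.symm y]; exact hy)
        have h4 := h3.map f
        rwa [MulEquiv.apply_symm_apply] at h4
    · exact isCyclic_of_injective (Subgroup.inclusion hsub) (Subgroup.inclusion_injective hsub)
    · intro hc
      have h1 := hc (Subgroup.subset_closure hin)
      rw [Subgroup.mem_center_iff] at h1
      have h2 : (sr 0 : DihedralGroup 4) * r 1 = r 1 * sr 0 := congrArg Prod.snd (h1 (1, sr 0))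
      exact absurd h2 (by decide)
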