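import Pool.Agent.R29.ID.Defs

/-! ID-S4: the Klein subgroup of the derived subgroup of `S₄` (MP_dbca9e_al). -/

set_option autoImplicit false

namespace R29ID.S4

open Equiv
open scoped commutatorElement

abbrev S := Perm (Fin 4)

lemma dec_comm : ∀ x : Perm (Fin 4), Perm.sign x = 1 → x * x = 1 → ∃ a b : Perm (Fin 4), a * b * a⁻¹ * b⁻¹ = x := by
  decide +kernel

lemma dec_mul : ∀ x : Perm (Fin 4), Perm.sign x = 1 → x * x = 1 →
    ∀ y : Perm (Fin 4), Perm.sign y = 1 → y * y = 1 → (x * y) * (x * y) = 1 := by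
  decide +kernel

lemma dec_fix : ∀ x : Perm (Fin 4), Perm.sign x = 1 → x 0 = 0 →
    ∀ y : Perm (Fin 4), Perm.sign y = 1 → y 0 = 0 → x * y = y * x := by
  decide +kernel

lemma dec_card : Fintype.card {x : Perm (Fin 4) // Perm.sign x = 1 ∧ x * x = 1} = 4 := by
  decide +kernel

lemma sign_one (x : S) (hx : x ∈ commutator S) : Perm.sign x = 1 := by
  have h := Abelianization.commutator_subset_ker (Perm.sign (α := Fin 4)) hx
  exact h

/-- the Klein subgroup -/
def V : Subgroup (commutator S) where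
  carrier := {x | x * x = 1}
  one_mem' := by simp
  mul_mem' := by
    intro a b ha hb
    have ha' : (a : S) * a = 1 := by
      have := congrArg Subtype.val ha
      exact this
    have hb' : (b : S) * b = 1 := by
      have := congrArg Subtype.val hb
      exact this
    apply Subtype.ext
    exact dec_mul a (sign_one a a.2) ha' b (sign_one b b.2) hb'
  inv_mem' := by
    intro a ha
    have ha' : a * a = 1 := ha
    show a⁻¹ * a⁻¹ = 1
    rw [← mul_inv_rev, ha', inv_one]

lemma mem_V (x : commutator S) : x ∈ V ↔ x * x = 1 := Iff.rfl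

lemma mem_comm (x : S) (h1 : Perm.sign x = 1) (h2 : x * x = 1) : x ∈ commutator S := by
  obtain ⟨a, b, rfl⟩ := dec_comm x h1 h2
  have h : ⁅a, b⁆ ∈ commutator S := by
    rw [commutator_def]
    exact Subgroup.commutator_mem_commutator (Subgroup.mem_top a) (Subgroup.mem_top b)
  exact h

def e0 : V ≃ {x : Perm (Fin 4) // Perm.sign x = 1 ∧ x * x = 1} where
  toFun v := ⟨v.1.1, sign_one _ v.1.2, congrArg Subtype.val v.2⟩
  invFun w := ⟨⟨w.1, mem_comm w.1 w.2.1 w.2.2⟩, Subtype.ext w.2.2⟩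
  left_inv v := rfl
  right_inv w := rfl

lemma exists_e : ∃ e : V ≃ Fin 4, e 1 = 0 := by
  let e1 : {x : Perm (Fin 4) // Perm.sign x = 1 ∧ x * x = 1} ≃ Fin 4 := Fintype.equivFinOfCardEq dec_card
  refine ⟨(e0.trans e1).trans (Equiv.swap ((e0.trans e1) 1) 0), ?_⟩
  simp

lemma ser : derivedSeries (MulAut V) 2 = ⊥ := by
  obtain ⟨e, he⟩ := exists_e
  let f : MulAut V →* Perm (Fin 4) :=
    (e.permCongrHom.toMonoidHom).comp (MulAut.toPerm V)
  have hf : ∀ φ : MulAut V, ∀ i : Fin 4, f φ i = e (φ (e.symm i)) := fun φ i => rfl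
  have hf0 : ∀ φ : MulAut V, f φ 0 = 0 := by
    intro φ
    have h1 : e.symm 0 = 1 := by rw [← he, Equiv.symm_apply_apply]
    rw [hf, h1, map_one, he]
  have hinj : Function.Injective f := by
    intro φ ψ h
    ext1 v
    have h1 : f φ (e v) = f ψ (e v) := by rw [h]
    rw [hf, hf, Equiv.symm_apply_apply] at h1
    exact e.injective h1
  have hs : ∀ φ ∈ derivedSeries (MulAut V) 1, Perm.sign (f φ) = 1 := by
    intro φ hφ
    rw [derivedSeries_one] at hφ
    exact Abelianization.commutator_subset_ker ((Perm.sign (α := Fin 4)).comp f) hφ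
  have h2 : derivedSeries (MulAut V) 2 = ⁅derivedSeries (MulAut V) 1, derivedSeries (MulAut V) 1⁆ := rfl
  rw [h2, Subgroup.commutator_eq_bot_iff_le_centralizer]
  intro φ hφ
  rw [Subgroup.mem_centralizer_iff]
  intro ψ hψ
  apply hinj
  rw [map_mul, map_mul]
  exact dec_fix _ (hs ψ hψ) (hf0 ψ) _ (hs φ hφ) (hf0 φ)

theorem s4v : S4V := by
  refine ⟨V, ⟨fun φ => ?_⟩, ser, ?_⟩
  · ext x
    rw [Subgroup.mem_comap, mem_V, mem_V]
    constructor
    · intro h
      have h1 : φ (x * x) = φ 1 := by rw [map_mul, map_one]; exact h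
      exact φ.injective h1
    · intro h
      show φ x * φ x = 1
      rw [← map_mul, h, map_one]
  · intro h
    have hg : (swap (0 : Fin 4) 1 * swap 1 2 * (swap 0 1)⁻¹ * (swap 1 2)⁻¹ : S) ∈ commutator S := by
      have h1 : ⁅(swap (0 : Fin 4) 1 : S), (swap 1 2 : S)⁆ ∈ commutator S := by
        rw [commutator_def]
        exact Subgroup.commutator_mem_commutator (Subgroup.mem_top _) (Subgroup.mem_top _)
      exact h1
    have hv1 : Perm.sign (swap (0 : Fin 4) 1 * swap 2 3 : S) = 1 := by decide +kernel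
    have hv2 : (swap (0 : Fin 4) 1 * swap 2 3 : S) * (swap (0 : Fin 4) 1 * swap 2 3 : S) = 1 := by decide +kernel
    have h1 := h (Subgroup.mem_top ⟨_, hg⟩)
    rw [Subgroup.mem_centralizer_iff] at h1
    have h2 := h1 ⟨_, mem_comm _ hv1 hv2⟩ (Subtype.ext hv2)
    have h3 := congrArg Subtype.val h2
    have h4 : ¬ ((swap (0 : Fin 4) 1 * swap 2 3 : S) * (swap (0 : Fin 4) 1 * swap 1 2 * (swap 0 1)⁻¹ * (swap 1 2)⁻¹ : S) =
        (swap (0 : Fin 4) 1 * swap 1 2 * (swap 0 1)⁻¹ * (swap 1 2)⁻¹ : S) * (swap (0 : Fin 4) 1 * swap 2 3 : S)) := by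
      decide +kernel
    exact h4 h3

end R29ID.S4
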