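import Pool.Agent.R29.ID.Defs

/-! ID-UT5: the second derived subgroup of the group of unitriangular 5x5 matrices over `R`
is the additive group of `R`. -/

namespace R29ID.UT5x
open scoped commutatorElement

/-- unitriangular 5x5 matrices, as ten entries -/
@[ext] structure U (R : Type) where
  a12 : R
  a23 : R
  a34 : R
  a45 : R
  a13 : R
  a24 : R
  a35 : R
  a14 : R
  a25 : R
  a15 : R

variable {R : Type} [CommRing R]

instance : Mul (U R) where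
  mul a b :=
    { a12 := a.a12 + b.a12
      a23 := a.a23 + b.a23
      a34 := a.a34 + b.a34
      a45 := a.a45 + b.a45
      a13 := a.a13 + a.a12 * b.a23 + b.a13
      a24 := a.a24 + a.a23 * b.a34 + b.a24
      a35 := a.a35 + a.a34 * b.a45 + b.a35
      a14 := a.a14 + a.a13 * b.a34 + a.a12 * b.a24 + b.a14
      a25 := a.a25 + a.a24 * b.a45 + a.a23 * b.a35 + b.a25
      a15 := a.a15 + a.a14 * b.a45 + a.a13 * b.a35 + a.a12 * b.a25 + b.a15 }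

instance : One (U R) where
  one := ⟨0, 0, 0, 0, 0, 0, 0, 0, 0, 0⟩

instance : Inv (U R) where
  inv a :=
    { a12 := - a.a12
      a23 := - a.a23
      a34 := - a.a34
      a45 := - a.a45
      a13 := - a.a13 + a.a12 * a.a23
      a24 := - a.a24 + a.a23 * a.a34
      a35 := - a.a35 + a.a34 * a.a45
      a14 := - a.a14 + a.a13 * a.a34 + a.a12 * a.a24 - a.a12 * a.a23 * a.a34
      a25 := - a.a25 + a.a24 * a.a45 + a.a23 * a.a35 - a.a23 * a.a34 * a.a45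
      a15 := - a.a15 + a.a14 * a.a45 + a.a13 * a.a35 + a.a12 * a.a25
        - a.a13 * a.a34 * a.a45 - a.a12 * a.a24 * a.a45 - a.a12 * a.a23 * a.a35
        + a.a12 * a.a23 * a.a34 * a.a45 }

section simps
variable (a b : U R)
@[simp] lemma m12 : (a * b).a12 = a.a12 + b.a12 := rfl
@[simp] lemma m23 : (a * b).a23 = a.a23 + b.a23 := rfl
@[simp] lemma m34 : (a * b).a34 = a.a34 + b.a34 := rfl
@[simp] lemma m45 : (a * b).a45 = a.a45 + b.a45 := rfl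
@[simp] lemma m13 : (a * b).a13 = a.a13 + a.a12 * b.a23 + b.a13 := rfl
@[simp] lemma m24 : (a * b).a24 = a.a24 + a.a23 * b.a34 + b.a24 := rfl
@[simp] lemma m35 : (a * b).a35 = a.a35 + a.a34 * b.a45 + b.a35 := rfl
@[simp] lemma m14 : (a * b).a14 = a.a14 + a.a13 * b.a34 + a.a12 * b.a24 + b.a14 := rfl
@[simp] lemma m25 : (a * b).a25 = a.a25 + a.a24 * b.a45 + a.a23 * b.a35 + b.a25 := rfl
@[simp] lemma m15 : (a * b).a15 =
  a.a15 + a.a14 * b.a45 + a.a13 * b.a35 + a.a12 * b.a25 + b.a15 := rfl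
@[simp] lemma o12 : (1 : U R).a12 = 0 := rfl
@[simp] lemma o23 : (1 : U R).a23 = 0 := rfl
@[simp] lemma o34 : (1 : U R).a34 = 0 := rfl
@[simp] lemma o45 : (1 : U R).a45 = 0 := rfl
@[simp] lemma o13 : (1 : U R).a13 = 0 := rfl
@[simp] lemma o24 : (1 : U R).a24 = 0 := rfl
@[simp] lemma o35 : (1 : U R).a35 = 0 := rfl
@[simp] lemma o14 : (1 : U R).a14 = 0 := rfl
@[simp] lemma o25 : (1 : U R).a25 = 0 := rfl
@[simp] lemma o15 : (1 : U R).a15 = 0 := rfl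
@[simp] lemma i12 : (a⁻¹).a12 = - a.a12 := rfl
@[simp] lemma i23 : (a⁻¹).a23 = - a.a23 := rfl
@[simp] lemma i34 : (a⁻¹).a34 = - a.a34 := rfl
@[simp] lemma i45 : (a⁻¹).a45 = - a.a45 := rfl
@[simp] lemma i13 : (a⁻¹).a13 = - a.a13 + a.a12 * a.a23 := rfl
@[simp] lemma i24 : (a⁻¹).a24 = - a.a24 + a.a23 * a.a34 := rfl
@[simp] lemma i35 : (a⁻¹).a35 = - a.a35 + a.a34 * a.a45 := rfl
@[simp] lemma i14 : (a⁻¹).a14 =
  - a.a14 + a.a13 * a.a34 + a.a12 * a.a24 - a.a12 * a.a23 * a.a34 := rfl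
@[simp] lemma i25 : (a⁻¹).a25 =
  - a.a25 + a.a24 * a.a45 + a.a23 * a.a35 - a.a23 * a.a34 * a.a45 := rfl
@[simp] lemma i15 : (a⁻¹).a15 = - a.a15 + a.a14 * a.a45 + a.a13 * a.a35 + a.a12 * a.a25
        - a.a13 * a.a34 * a.a45 - a.a12 * a.a24 * a.a45 - a.a12 * a.a23 * a.a35
        + a.a12 * a.a23 * a.a34 * a.a45 := rfl
end simps

instance : Group (U R) :=
  Group.ofLeftAxioms
    (by intro a b c; ext <;> simp <;> ring)
    (by intro a; ext <;> simp)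
    (by intro a; ext <;> simp <;> ring)

instance [Finite R] : Finite (U R) := by
  refine Finite.of_injective
    (fun a : U R => (a.a12, a.a23, a.a34, a.a45, a.a13, a.a24, a.a35, a.a14, a.a25, a.a15)) ?_
  intro a b h
  simp only [Prod.mk.injEq] at h
  obtain ⟨h1, h2, h3, h4, h5, h6, h7, h8, h9, h10⟩ := h
  ext <;> assumption

/-- superdiagonal entries vanish -/
def S : Subgroup (U R) where
  carrier := {x | x.a12 = 0 ∧ x.a23 = 0 ∧ x.a34 = 0 ∧ x.a45 = 0}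
  mul_mem' := by
    rintro a b ⟨h1, h2, h3, h4⟩ ⟨k1, k2, k3, k4⟩
    refine ⟨?_, ?_, ?_, ?_⟩ <;> simp [*]
  one_mem' := ⟨rfl, rfl, rfl, rfl⟩
  inv_mem' := by
    rintro a ⟨h1, h2, h3, h4⟩
    refine ⟨?_, ?_, ?_, ?_⟩ <;> simp [*]

lemma comm_le_S : commutator (U R) ≤ S := by
  rw [commutator_def, Subgroup.commutator_le]
  intro g _ h _
  refine ⟨?_, ?_, ?_, ?_⟩ <;> simp [commutatorElement_def]

/-- only the corner entry -/
def T : Subgroup (commutator (U R)) where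
  carrier := {x | x.1.a12 = 0 ∧ x.1.a23 = 0 ∧ x.1.a34 = 0 ∧ x.1.a45 = 0 ∧ x.1.a13 = 0 ∧
    x.1.a24 = 0 ∧ x.1.a35 = 0 ∧ x.1.a14 = 0 ∧ x.1.a25 = 0}
  mul_mem' := by
    rintro a b ⟨h1, h2, h3, h4, h5, h6, h7, h8, h9⟩ ⟨k1, k2, k3, k4, k5, k6, k7, k8, k9⟩
    refine ⟨?_, ?_, ?_, ?_, ?_, ?_, ?_, ?_, ?_⟩ <;> simp [*]
  one_mem' := ⟨rfl, rfl, rfl, rfl, rfl, rfl, rfl, rfl, rfl⟩
  inv_mem' := by
    rintro a ⟨h1, h2, h3, h4, h5, h6, h7, h8, h9⟩
    refine ⟨?_, ?_, ?_, ?_, ?_, ?_, ?_, ?_, ?_⟩ <;> simp [*]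

lemma comm2_le_T : commutator (commutator (U R)) ≤ T := by
  refine Subgroup.commutator_le.2 ?_
  rintro ⟨g, hg⟩ _ ⟨h, hh⟩ _
  obtain ⟨g1, g2, g3, g4⟩ := comm_le_S hg
  obtain ⟨h1, h2, h3, h4⟩ := comm_le_S hh
  refine ⟨?_, ?_, ?_, ?_, ?_, ?_, ?_, ?_, ?_⟩ <;>
    simp [commutatorElement_def, g1, g2, g3, g4, h1, h2, h3, h4]

lemma e13 (a : R) : (⟨0, 0, 0, 0, a, 0, 0, 0, 0, 0⟩ : U R) ∈ commutator (U R) := by
  have h : (⟨0, 0, 0, 0, a, 0, 0, 0, 0, 0⟩ : U R)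
      = ⁅(⟨a, 0, 0, 0, 0, 0, 0, 0, 0, 0⟩ : U R), (⟨0, 1, 0, 0, 0, 0, 0, 0, 0, 0⟩ : U R)⁆ := by
    rw [commutatorElement_def]
    ext <;> simp
  rw [h]
  exact Subgroup.commutator_mem_commutator (Subgroup.mem_top _) (Subgroup.mem_top _)

lemma e35 (a : R) : (⟨0, 0, 0, 0, 0, 0, a, 0, 0, 0⟩ : U R) ∈ commutator (U R) := by
  have h : (⟨0, 0, 0, 0, 0, 0, a, 0, 0, 0⟩ : U R)
      = ⁅(⟨0, 0, a, 0, 0, 0, 0, 0, 0, 0⟩ : U R), (⟨0, 0, 0, 1, 0, 0, 0, 0, 0, 0⟩ : U R)⁆ := by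
    rw [commutatorElement_def]
    ext <;> simp
  rw [h]
  exact Subgroup.commutator_mem_commutator (Subgroup.mem_top _) (Subgroup.mem_top _)

lemma e15 (a : R) : ∃ x : commutator (commutator (U R)),
    x.1.1 = (⟨0, 0, 0, 0, 0, 0, 0, 0, 0, a⟩ : U R) := by
  have hmem : ⁅(⟨_, e13 a⟩ : commutator (U R)), (⟨_, e35 1⟩ : commutator (U R))⁆
      ∈ commutator (commutator (U R)) :=
    Subgroup.commutator_mem_commutator (Subgroup.mem_top _) (Subgroup.mem_top _)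
  have hval : (⁅(⟨_, e13 a⟩ : commutator (U R)), (⟨_, e35 1⟩ : commutator (U R))⁆).1
      = (⟨0, 0, 0, 0, 0, 0, 0, 0, 0, a⟩ : U R) := by
    rw [commutatorElement_def]
    ext <;> simp
  exact ⟨⟨_, hmem⟩, hval⟩

/-- the corner entry -/
def corner : commutator (commutator (U R)) →* Multiplicative R where
  toFun x := Multiplicative.ofAdd x.1.1.a15
  map_one' := rfl
  map_mul' x y := by
    obtain ⟨h1, h2, h3, h4, h5, h6, h7, h8, h9⟩ := comm2_le_T x.2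
    obtain ⟨k1, k2, k3, k4, k5, k6, k7, k8, k9⟩ := comm2_le_T y.2
    rw [← ofAdd_add]
    congr 1
    simp [*]

lemma corner_bij : Function.Bijective (corner (R := R)) := by
  constructor
  · intro x y hxy
    obtain ⟨h1, h2, h3, h4, h5, h6, h7, h8, h9⟩ := comm2_le_T x.2
    obtain ⟨k1, k2, k3, k4, k5, k6, k7, k8, k9⟩ := comm2_le_T y.2
    have h10 : x.1.1.a15 = y.1.1.a15 := Multiplicative.ofAdd.injective hxy
    apply Subtype.ext
    apply Subtype.ext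
    ext <;> simp [*]
  · intro r
    obtain ⟨x, hx⟩ := e15 (Multiplicative.toAdd r)
    refine ⟨x, ?_⟩
    show Multiplicative.ofAdd x.1.1.a15 = r
    rw [hx]
    rfl

end R29ID.UT5x

namespace R29ID

theorem ut5 : UT5 := by
  intro R _ _
  exact ⟨UT5x.U R, inferInstance, inferInstance,
    ⟨MulEquiv.ofBijective UT5x.corner UT5x.corner_bij⟩⟩

end R29ID
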